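import Pool.Agent.Run7.h892.CG.Stm

/-! Piece ALP of project CG (helper892), by helper926. -/

set_option autoImplicit false

namespace Run7.h926.CG

open Pool.Agent.Run7.h892.CG NumberField Polynomial

theorem integral_half {K : Type} [Field K] [NumberField K] (p m T Y Z : ℤ) (θ : K)
    (hθ : θ ^ 2 = ((p * m : ℤ) : K)) (hT : T ^ 2 - p * m * Y ^ 2 = -4 * p * Z ^ 2) :
    IsIntegral ℤ (((T : K) + Y * θ) / 2) := by
  refine ⟨X ^ 2 - C T * X - C (p * Z ^ 2), ?_, ?_⟩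
  · have : (X ^ 2 - C T * X - C (p * Z ^ 2) : ℤ[X]) = X ^ 2 + (C (-T) * X + C (-(p * Z ^ 2))) := by
      simp only [map_neg]
      ring
    rw [this]
    refine Polynomial.monic_X_pow_add ?_
    refine lt_of_le_of_lt Polynomial.degree_linear_le ?_
    norm_num
  · have h2 : (T : K) ^ 2 - p * m * Y ^ 2 = -4 * p * Z ^ 2 := by exact_mod_cast hT
    have hθ' : θ ^ 2 = (p : K) * m := by rw [hθ]; push_cast; ring
    rw [eval₂_sub, eval₂_sub, eval₂_mul, eval₂_pow, eval₂_X, eval₂_C, eval₂_C,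
      eq_intCast (algebraMap ℤ K), eq_intCast (algebraMap ℤ K)]
    push_cast
    have : (((T : K) + Y * θ) / 2) ^ 2 - T * (((T : K) + Y * θ) / 2) - p * Z ^ 2 =
        (Y ^ 2 * θ ^ 2 - T ^ 2) / 4 - p * Z ^ 2 := by ring
    rw [this, hθ']
    linear_combination (-1 / 4 : K) * h2

theorem t_ALP : S_ALP := by
  intro K _ _ p m T Y Z θ hodd hcop hθ hT hpT
  have hinj : Function.Injective (algebraMap (𝓞 K) K) := FaithfulSMul.algebraMap_injective (𝓞 K) K
  have hθK : (algebraMap (𝓞 K) K θ) ^ 2 = ((p * m : ℤ) : K) := by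
    have := congrArg (algebraMap (𝓞 K) K) hθ
    rwa [map_pow, map_intCast] at this
  have i1 := integral_half p m T Y Z (algebraMap (𝓞 K) K θ) hθK hT
  have i2 := integral_half p m T (-Y) Z (algebraMap (𝓞 K) K θ) hθK (by rw [← hT]; ring)
  let α : 𝓞 K := ⟨((T : K) + Y * algebraMap (𝓞 K) K θ) / 2, i1⟩
  let α' : 𝓞 K := ⟨((T : K) + (-Y : ℤ) * algebraMap (𝓞 K) K θ) / 2, i2⟩
  have hα : algebraMap (𝓞 K) K α = ((T : K) + Y * algebraMap (𝓞 K) K θ) / 2 := rfl
  have hα' : algebraMap (𝓞 K) K α' = ((T : K) + (-Y : ℤ) * algebraMap (𝓞 K) K θ) / 2 := rfl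
  clear_value α α'
  have hsum : α + α' = (T : 𝓞 K) := by
    apply hinj
    rw [map_add, hα, hα', map_intCast]
    push_cast
    ring
  have hprod : α * α' = -((p : 𝓞 K) * (Z : 𝓞 K) ^ 2) := by
    apply hinj
    rw [map_mul, hα, hα']
    have h2 : (T : K) ^ 2 - p * m * Y ^ 2 = -4 * p * Z ^ 2 := by exact_mod_cast hT
    have hθ' : (algebraMap (𝓞 K) K θ) ^ 2 = (p : K) * m := by rw [hθK]; push_cast; ring
    rw [map_neg, map_mul, map_pow, map_intCast, map_intCast]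
    push_cast
    have : ((T : K) + Y * algebraMap (𝓞 K) K θ) / 2 * (((T : K) + -Y * algebraMap (𝓞 K) K θ) / 2) =
        (T ^ 2 - Y ^ 2 * (algebraMap (𝓞 K) K θ) ^ 2) / 4 := by
      ring
    rw [this, hθ']
    linear_combination (1 / 4 : K) * h2
  have h2α : 2 * α = (T : 𝓞 K) + (Y : 𝓞 K) * θ := by
    apply hinj
    rw [map_mul, hα, map_add, map_mul, map_intCast, map_intCast, map_ofNat]
    ring
  have h2α' : 2 * α' = (T : 𝓞 K) - (Y : 𝓞 K) * θ := by
    have : 2 * α' = 2 * (α + α') - 2 * α := by ring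
    rw [this, hsum, h2α]
    ring
  set P : Ideal (𝓞 K) := Ideal.span {(p : 𝓞 K), θ} with hP
  have hpP : (p : 𝓞 K) ∈ P := Ideal.subset_span (by simp)
  have hθP : θ ∈ P := Ideal.subset_span (by simp)
  have hTP : (T : 𝓞 K) ∈ P := by
    obtain ⟨c, rfl⟩ := hpT
    push_cast
    exact Ideal.mul_mem_right _ _ hpP
  obtain ⟨k, hk⟩ := hodd
  have hmem : ∀ x : 𝓞 K, 2 * x ∈ P → x ∈ P := by
    intro x hx
    have : x = x * (p : 𝓞 K) - (k : 𝓞 K) * (2 * x) := by
      rw [hk]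
      push_cast
      ring
    rw [this]
    exact Ideal.sub_mem _ (Ideal.mul_mem_left _ _ hpP) (Ideal.mul_mem_left _ _ hx)
  refine ⟨P, α, α', ?_, hmem α ?_, hmem α' ?_, hsum, hprod⟩
  · rw [sq, hP, Ideal.span_pair_mul_span_pair]
    apply le_antisymm
    · rw [Ideal.span_le]
      intro x hx
      simp only [Set.mem_insert_iff, Set.mem_singleton_iff] at hx
      rw [SetLike.mem_coe, Ideal.mem_span_singleton]
      rcases hx with hx | hx | hx | hx
      · rw [hx]; exact Dvd.intro _ rfl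
      · rw [hx]; exact Dvd.intro _ rfl
      · rw [hx]; exact Dvd.intro_left _ rfl
      · rw [hx, ← sq, hθ]
        push_cast
        exact Dvd.intro _ rfl
    · rw [Ideal.span_singleton_le_iff_mem]
      obtain ⟨u, v, huv⟩ := hcop
      have h : (p : 𝓞 K) = (u : 𝓞 K) * ((p : 𝓞 K) * p) + (v : 𝓞 K) * (θ * θ) := by
        rw [← sq θ, hθ]
        have h1 : ((u * p + v * m : ℤ) : 𝓞 K) = 1 := by rw [huv]; simp
        push_cast at h1 ⊢
        linear_combination -(p : 𝓞 K) * h1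
      have m1 : (p : 𝓞 K) * p ∈
          Ideal.span {(p : 𝓞 K) * p, (p : 𝓞 K) * θ, θ * (p : 𝓞 K), θ * θ} :=
        Ideal.subset_span (Or.inl rfl)
      have m2 : θ * θ ∈
          Ideal.span {(p : 𝓞 K) * p, (p : 𝓞 K) * θ, θ * (p : 𝓞 K), θ * θ} :=
        Ideal.subset_span (Or.inr (Or.inr (Or.inr rfl)))
      have m3 := Ideal.add_mem _ (Ideal.mul_mem_left _ (u : 𝓞 K) m1)
        (Ideal.mul_mem_left _ (v : 𝓞 K) m2)
      rwa [← h] at m3
  · rw [h2α]
    exact Ideal.add_mem _ hTP (Ideal.mul_mem_left _ _ hθP)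
  · rw [h2α']
    exact Ideal.sub_mem _ hTP (Ideal.mul_mem_left _ _ hθP)

end Run7.h926.CG
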