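import Pool.Agent.Run7.h892.CG.Stm

/-! Piece PRI of project CG (helper892), by helper926. -/

set_option autoImplicit false

namespace Run7.h926.CG

open Pool.Agent.Run7.h892.CG

theorem t_PRI : S_PRI := by
  intro t
  induction t with
  | zero => exact ⟨fun i => i.elim0, fun i => i.elim0, fun i => i.elim0, fun i => i.elim0,
      fun i => i.elim0⟩
  | succ t ih =>
    obtain ⟨p, hinj, hpr, h8, hsq⟩ := ih
    have hprod : (∏ i, p i) ≠ 0 := Finset.prod_ne_zero_iff.2 fun i _ => (hpr i).ne_zero
    have hN : 8 * ∏ i, p i ≠ 0 := mul_ne_zero (by norm_num) hprod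
    obtain ⟨q, hq, hlt, hmod⟩ := Nat.exists_prime_gt_modEq_one (8 + ∑ i, p i) hN
    have hgt : ∀ i, p i < q := fun i =>
      lt_of_le_of_lt ((Finset.single_le_sum (f := p) (fun _ _ => Nat.zero_le _)
        (Finset.mem_univ i)).trans (Nat.le_add_left _ _)) hlt
    have hq8 : q % 8 = 1 := by
      have h := hmod.of_dvd (Dvd.intro _ rfl : 8 ∣ 8 * ∏ i, p i)
      simpa [Nat.ModEq] using h
    have hqi : ∀ i, q ≡ 1 [MOD p i] := fun i =>
      hmod.of_dvd ((Finset.dvd_prod_of_mem p (Finset.mem_univ i)).mul_left 8)
    have hqsq : ∀ i, IsSquare ((q : ℕ) : ZMod (p i)) := by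
      intro i
      have h : ((q : ℕ) : ZMod (p i)) = 1 := by
        have := (ZMod.natCast_eq_natCast_iff q 1 (p i)).2 (hqi i)
        simpa using this
      rw [h]
      exact IsSquare.one
    have hpsq : ∀ i, IsSquare ((p i : ℕ) : ZMod q) := by
      intro i
      have : Fact q.Prime := ⟨hq⟩
      have : Fact (p i).Prime := ⟨hpr i⟩
      have h4 : q % 4 = 1 := by omega
      have h2 : p i ≠ 2 := by
        have := h8 i
        omega
      exact (ZMod.exists_sq_eq_prime_iff_of_mod_four_eq_one h4 h2).2 (hqsq i)
    refine ⟨Fin.cons q p, ?_, ?_, ?_, ?_⟩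
    · intro i j
      refine Fin.cases ?_ (fun i => ?_) i
      · refine Fin.cases (fun _ => rfl) (fun j => ?_) j
        intro h
        simp only [Fin.cons_zero, Fin.cons_succ] at h
        exact absurd h (hgt j).ne'
      · refine Fin.cases ?_ (fun j => ?_) j
        · intro h
          simp only [Fin.cons_zero, Fin.cons_succ] at h
          exact absurd h (hgt i).ne
        · intro h
          simp only [Fin.cons_succ] at h
          rw [hinj h]
    · intro i
      refine Fin.cases ?_ (fun i => ?_) i
      · simpa using hq
      · simpa using hpr i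
    · intro i
      refine Fin.cases ?_ (fun i => ?_) i
      · simpa using hq8
      · simpa using h8 i
    · intro i j
      refine Fin.cases ?_ (fun i => ?_) i
      · refine Fin.cases (fun h => absurd rfl h) (fun j => ?_) j
        intro _
        exact hqsq j
      · refine Fin.cases ?_ (fun j => ?_) j
        · intro _
          exact hpsq i
        · intro h
          exact hsq i j (fun e => h (by rw [e]))

end Run7.h926.CG
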